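import Pool.Agent.K7.H40.Mag.Main

/-!
# A Magidor cardinal `lam` with `α_M (lam) = μ⁺` for a singular cardinal `μ`

Let `j : V_{lam+1} → V_{lam+1}` be an `I1` embedding with critical point `κ 0`. There are singular
cardinals `μ` with `κ 0 ≤ μ < lam` and `μ ^ ℵ₀ = μ`, and for each of them, after adding `μ` Cohen
reals, `lam` is a Magidor cardinal with `α_M (lam) = μ⁺` and `μ` is singular.

The forcing relation is the one of `Pool.Agent.Helper292.SP.Lang`: a sentence of the forcing
language is represented by the set of the conditions which force it. The sentences used here are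
defined in `Pool.Agent.K7.H40.Mag.Defs`.

Idea of the proof. In the ground model every cardinal `α` with `κ 0 ≤ α < lam` satisfies
`lam → [lam]^{ℵ₀-bd}_{α, < α}`: if `c` is a colouring with `α` colours, then `j c` takes on the
bounded countable subsets of `j '' lam` only values in `j '' α`, and `|j '' α| < j α`.
Upper bound: let `c` be a colouring with `μ⁺` colours in the extension, where `2 ^ ℵ₀ = μ`. For
each countable bounded set `z` of the ground model the supremum of the possible values of `c` on
the subsets of `z` is less than `μ⁺`, as there are only `μ` many nice names for subsets of `z`;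
apply the ground model relation to these suprema. Lower bound: let `z_i` be a well-ordering of the
countable bounded sets of the ground model. In the extension colour `x` only if it is contained in
the first `z_i` which has infinite intersection with it; copy `z_i` to `ω` and use a
colouring of the infinite subsets of `ω` with at most `μ = 2 ^ ℵ₀` colours which takes all the
colours on the infinite subsets of each infinite set `y`; it is obtained by giving the
intersections of `y` with different Cohen reals different colours.
-/

set_option autoImplicit false

namespace Pool.Agent.Results.MP_1d9866_lc.SuccessorOfSingular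

open Cardinal Pool.Agent.K7.H40.Mag

theorem result (lam : Cardinal.{0}) (j : SOCat.VS lam.ord → SOCat.VS lam.ord)
    (κ : ℕ → Ordinal.{0}) (h : SOCat.IsI1Emb j κ) :
    (∃ μ : Cardinal.{0}, κ 0 ≤ μ.ord ∧ μ < lam ∧ μ.IsSingular ∧ μ ^ ℵ₀ = μ) ∧
    ∀ μ : Cardinal.{0}, κ 0 ≤ μ.ord → μ < lam → μ.IsSingular → μ ^ ℵ₀ = μ →
      Conclusion lam μ := by
  obtain ⟨μ, h1, h2, h3, h4⟩ := exists_mu h
  refine ⟨⟨μ, h1, h3, h2, h4⟩, fun μ h1 h2 h3 h4 => ?_⟩
  refine main lam μ (cof_of_I1 h) h3 h2 h4 (arrowLt_of_I1 h _ ?_ (succ_lt h h2))
  exact h1.trans (Cardinal.ord_le_ord.2 (Order.le_succ μ))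

end Pool.Agent.Results.MP_1d9866_lc.SuccessorOfSingular
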